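import Pool.Agent.H73.ST.Stm4
import Pool.Agent.H73.ST.Walk

/-!
# Part TIME of the exact sampler (MP_d8fb5e_lc): the expected running time is polynomial
-/

set_option autoImplicit false

namespace Pool.Agent.H43.ST

open Pool.Agent Pool.Agent.NPC Pool.Agent.H73.ST Finset
open scoped ENNReal

theorem sz_un (k : ℕ) : sz (un k) = 2 * k + 1 := by
  induction k with
  | zero => rfl
  | succ k ih =>
    change sz (() :: un k) = _
    rw [sz_list_cons, ih, sz_unit]
    ring

theorem eval_mul_le (Q : Polynomial ℕ) (x b : ℕ) (hb : 1 ≤ b) :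
    Q.eval (x * b) ≤ Q.eval x * b ^ Q.natDegree := by
  rw [Polynomial.eval_eq_sum_range, Polynomial.eval_eq_sum_range, Finset.sum_mul]
  refine Finset.sum_le_sum fun i hi => ?_
  rw [mul_pow, ← mul_assoc]
  exact Nat.mul_le_mul_left _ (Nat.pow_le_pow_right hb (by
    rw [Finset.mem_range] at hi
    omega))

theorem avg_special (k : ℕ) (f : ℕ → ℝ≥0∞) (A B : ℝ≥0∞) (h0 : f 0 ≤ A + B)
    (h : ∀ i < 2 ^ k, i ≠ 0 → f i ≤ A) : avg k f ≤ A + 2⁻¹ ^ k * B := by
  have h1 : avg k f ≤ avg k (fun i => A + if i = 0 then B else 0) := by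
    refine avg_mono fun i hi => ?_
    by_cases h2 : i = 0
    · subst h2
      simpa using h0
    · simpa [h2] using h i hi h2
  refine h1.trans ?_
  rw [avg_add k (fun _ => A), avg_const]
  refine add_le_add le_rfl ?_
  unfold avg
  rw [Finset.sum_ite_eq' (range (2 ^ k)) 0 (fun _ => B)]
  simp

theorem length_mov {N B v : ℕ} {I : List Bool → Bool} {y : List Bool} (hy : y.length = N) :
    (mov N B I v y).length = N := by
  unfold mov
  split_ifs
  · exact length_swp _ _ _ _
  · exact hy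

theorem length_grd (N : ℕ) (I : List Bool → Bool) : (grd N I).length = N := by
  rw [grd_eq]
  exact length_gst _ _ _

variable {α β : Type} [TEnc α] (nf : α → ℕ) (ind : α × List Bool → Bool)
  (out : α × List Bool → β) (Q : Polynomial ℕ)

/-- the recursion of the expected times -/
def Rec (E : ((α × List Unit) × Tag) × ℕ → ℝ≥0∞) : Prop :=
  ∀ s, E s ≤ (Q.eval (sz s) : ℕ) +
    Sum.elim (fun q => avg q.2.length (fun i => E (q.1, i))) (fun _ => 0) (next nf ind out s)

variable {nf ind out Q}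

theorem walk_le {E : ((α × List Unit) × Tag) × ℕ → ℝ≥0∞} (hE : Rec nf ind out Q E)
    (a : α) (s : ℕ) (W : ℕ)
    (hW : sz a + 2 * s + 4 * nf a + 4 * tt (nf a) s + 8 * m0 (nf a) + 20 ≤ W) :
    ∀ (r : ℕ) (y : List Bool) (v : ℕ), r ≤ 2 * tt (nf a) s → y.length = nf a →
      v < 2 ^ (2 * m0 (nf a)) →
      E (((a, un s), Sum.inr (Sum.inl (y, un r))), v) ≤ (((r + 1) * Q.eval W : ℕ) : ℝ≥0∞) := by
  have hsz : ∀ (r : ℕ) (y : List Bool) (v : ℕ), r ≤ 2 * tt (nf a) s → y.length = nf a →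
      v < 2 ^ (2 * m0 (nf a)) →
      Q.eval (sz ((((a, un s), Sum.inr (Sum.inl (y, un r))), v) : ((α × List Unit) × Tag) × ℕ)) ≤
        Q.eval W := by
    intro r y v hr hy hv
    apply eval_mono
    have h1 := sz_nat_le v
    have h2 : v.size ≤ 2 * m0 (nf a) := Nat.size_le.mpr hv
    have h3 := sz_listBool_le y
    have h4 := sz_un s
    have h5 := sz_un r
    simp only [sz_pair, sz_inr, sz_inl]
    omega
  intro r
  induction r with
  | zero =>
    intro y v hr hy hv
    refine (hE _).trans ?_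
    have hn : next nf ind out (((a, un s), Sum.inr (Sum.inl (y, un 0))), v) =
      Sum.inr (out (a, mov (nf a) (2 ^ m0 (nf a)) (fun y => ind (a, y)) v y)) := rfl
    rw [hn]
    simp only [Sum.elim_inr, add_zero, zero_add, one_mul]
    exact_mod_cast hsz 0 y v hr hy hv
  | succ r ih =>
    intro y v hr hy hv
    refine (hE _).trans ?_
    have hn : next nf ind out (((a, un s), Sum.inr (Sum.inl (y, un (r + 1)))), v) =
      Sum.inl (((a, un s), Sum.inr (Sum.inl (mov (nf a) (2 ^ m0 (nf a)) (fun y => ind (a, y)) v y,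
        un r))), un (2 * m0 (nf a))) := rfl
    rw [hn]
    simp only [Sum.elim_inl]
    have h1 : avg (un (2 * m0 (nf a))).length (fun i => E (((a, un s), Sum.inr (Sum.inl
        (mov (nf a) (2 ^ m0 (nf a)) (fun y => ind (a, y)) v y, un r))), i)) ≤
        (((r + 1) * Q.eval W : ℕ) : ℝ≥0∞) := by
      rw [List.length_replicate, ← avg_const (2 * m0 (nf a)) (((r + 1) * Q.eval W : ℕ) : ℝ≥0∞)]
      exact avg_mono fun i hi => ih _ i (by omega) (length_mov hy) hi
    refine (add_le_add (Nat.cast_le.mpr (hsz (r + 1) y v hr hy hv)) h1).trans ?_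
    rw [← Nat.cast_add]
    apply Nat.cast_le.mpr
    apply le_of_eq
    ring

theorem sz_allM (k : ℕ) : sz (allM k) ≤ 2 ^ k * (4 * k + 2) + 1 := by
  have h := sz_le_length_mul (allM k) (4 * k + 1) (fun y hy => by
    have := sz_listBool_le y
    rw [mem_allM] at hy
    omega)
  rw [length_allM] at h
  exact h

theorem pad_le {E : ((α × List Unit) × Tag) × ℕ → ℝ≥0∞} (hE : Rec nf ind out Q E)
    (a : α) (s : ℕ) (P : ℕ)
    (hP : sz a + 2 * s + 6 * nf a + 4 * mm (nf a) s + 30 ≤ P) :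
    E (((a, un s), Sum.inr (Sum.inr (Sum.inl ([[]], un (nf a))))), 0) ≤
      (((nf a + 2) * Q.eval (P * 2 ^ nf a) : ℕ) : ℝ≥0∞) +
        E (((a, un s), Sum.inl false), 0) := by
  set N := nf a with hN
  have h2N : 1 ≤ 2 ^ N := Nat.one_le_two_pow
  -- sizes
  have hszA : ∀ k ≤ N, sz (allM k) ≤ (4 * N + 3) * 2 ^ N := by
    intro k hk
    have h1 := sz_allM k
    have h2 : 2 ^ k ≤ 2 ^ N := Nat.pow_le_pow_right (by norm_num) hk
    have h3 : 2 ^ k * (4 * k + 2) ≤ 2 ^ N * (4 * N + 2) := Nat.mul_le_mul h2 (by omega)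
    calc sz (allM k) ≤ 2 ^ N * (4 * N + 2) + 2 ^ N := by omega
      _ = (4 * N + 3) * 2 ^ N := by ring
  have hmul : ∀ x, x ≤ x * 2 ^ N := fun x => Nat.le_mul_of_pos_right x h2N
  have hpick : ∀ v < 2 ^ mm N s,
      E (((a, un s), Sum.inr (Sum.inr (Sum.inr (allM N)))), v) ≤
        ((Q.eval (P * 2 ^ N) : ℕ) : ℝ≥0∞) + E (((a, un s), Sum.inl false), 0) := by
    intro v hv
    have hs : Q.eval (sz ((((a, un s), Sum.inr (Sum.inr (Sum.inr (allM N)))), v) :
        ((α × List Unit) × Tag) × ℕ)) ≤ Q.eval (P * 2 ^ N) := by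
      apply eval_mono
      have h1 := sz_nat_le v
      have h2 : v.size ≤ mm N s := Nat.size_le.mpr hv
      have h4 := sz_un s
      have h5 := hszA N le_rfl
      have h6 := hmul (sz a + 2 * s + 4 * mm N s + 25)
      have h7 : (sz a + 2 * s + 4 * mm N s + 25) * 2 ^ N + (4 * N + 3) * 2 ^ N ≤ P * 2 ^ N := by
        rw [← add_mul]
        exact Nat.mul_le_mul_right _ (by omega)
      simp only [sz_pair, sz_inr]
      omega
    refine (hE _).trans ?_
    refine add_le_add (Nat.cast_le.mpr hs) ?_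
    have hn : next nf ind out (((a, un s), Sum.inr (Sum.inr (Sum.inr (allM N)))), v) =
      match pick (nf a) (un s).length (fun y => ind (a, y)) (allM N) v with
      | some y => Sum.inr (out (a, y))
      | none => Sum.inl (((a, un s), Sum.inl false), []) := rfl
    rw [hn]
    cases pick (nf a) (un s).length (fun y => ind (a, y)) (allM N) v with
    | some y => simp
    | none =>
      simp only [Sum.elim_inl, List.length_nil]
      rw [avg_zero]
  have hpad : ∀ j ≤ N, E (((a, un s), Sum.inr (Sum.inr (Sum.inl (allM (N - j), un j)))), 0) ≤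
      (((j + 2) * Q.eval (P * 2 ^ N) : ℕ) : ℝ≥0∞) + E (((a, un s), Sum.inl false), 0) := by
    have hszp : ∀ j ≤ N, Q.eval (sz ((((a, un s), Sum.inr (Sum.inr (Sum.inl (allM (N - j), un j)))),
        0) : ((α × List Unit) × Tag) × ℕ)) ≤ Q.eval (P * 2 ^ N) := by
      intro j hj
      apply eval_mono
      have h1 : sz (0 : ℕ) ≤ 1 := by simpa using sz_nat_le 0
      have h4 := sz_un s
      have h4' := sz_un j
      have h5 := hszA (N - j) (Nat.sub_le _ _)
      have h6 := hmul (sz a + 2 * s + 2 * N + 25)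
      have h7 : (sz a + 2 * s + 2 * N + 25) * 2 ^ N + (4 * N + 3) * 2 ^ N ≤ P * 2 ^ N := by
        rw [← add_mul]
        exact Nat.mul_le_mul_right _ (by omega)
      simp only [sz_pair, sz_inr, sz_inl]
      omega
    intro j
    induction j with
    | zero =>
      intro hj
      refine (hE _).trans ?_
      have hn : next nf ind out (((a, un s), Sum.inr (Sum.inr (Sum.inl (allM (N - 0), un 0)))), 0) =
        Sum.inl (((a, un s), Sum.inr (Sum.inr (Sum.inr (allM N)))), un (mm (nf a) (un s).length)) :=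
        rfl
      have h1 : avg (un (mm (nf a) (un s).length)).length (fun i =>
          E (((a, un s), Sum.inr (Sum.inr (Sum.inr (allM N)))), i)) ≤
          ((Q.eval (P * 2 ^ N) : ℕ) : ℝ≥0∞) + E (((a, un s), Sum.inl false), 0) := by
        rw [List.length_replicate, List.length_replicate, ← hN,
          ← avg_const (mm N s) (((Q.eval (P * 2 ^ N) : ℕ) : ℝ≥0∞) + E (((a, un s), Sum.inl false), 0))]
        exact avg_mono hpick
      rw [hn]
      simp only [Sum.elim_inl]
      refine (add_le_add (Nat.cast_le.mpr (hszp 0 hj)) h1).trans ?_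
      rw [← add_assoc, ← Nat.cast_add]
      refine add_le_add (Nat.cast_le.mpr ?_) le_rfl
      apply le_of_eq
      ring
    | succ j ih =>
      intro hj
      refine (hE _).trans ?_
      have hk : N - j = (N - (j + 1)) + 1 := by omega
      have hn : next nf ind out (((a, un s), Sum.inr (Sum.inr (Sum.inl (allM (N - (j + 1)),
          un (j + 1))))), 0) =
        Sum.inl (((a, un s), Sum.inr (Sum.inr (Sum.inl (allM (N - (j + 1) + 1), un j)))), []) := rfl
      rw [hn, ← hk]
      simp only [Sum.elim_inl, List.length_nil]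
      rw [avg_zero]
      refine (add_le_add (Nat.cast_le.mpr (hszp (j + 1) hj)) (ih (by omega))).trans ?_
      rw [← add_assoc, ← Nat.cast_add]
      refine add_le_add (Nat.cast_le.mpr ?_) le_rfl
      apply le_of_eq
      ring
  have h := hpad N le_rfl
  rw [Nat.sub_self] at h
  exact h

/-- The bound before the choice of the polynomial. -/
theorem start_le {E : ((α × List Unit) × Tag) × ℕ → ℝ≥0∞} (hE : Rec nf ind out Q E) (c : ℕ)
    (hc : ∀ s, E s ≤ (c : ℝ≥0∞)) (a : α) (s : ℕ) (hs : s = Q.natDegree * nf a + 1) (W P : ℕ)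
    (hW : sz a + 2 * s + 4 * nf a + 4 * tt (nf a) s + 8 * m0 (nf a) + 4 * s + 20 ≤ W)
    (hP : sz a + 2 * s + 6 * nf a + 4 * mm (nf a) s + 30 ≤ P) :
    E (((a, un s), Sum.inl false), 0) ≤
      ((2 * ((2 * tt (nf a) s + 3) * Q.eval W + (nf a + 2) * Q.eval P) : ℕ) : ℝ≥0∞) := by
  set ES := E (((a, un s), Sum.inl false), 0) with hES
  set A : ℝ≥0∞ := (((2 * tt (nf a) s + 2) * Q.eval W : ℕ) : ℝ≥0∞) with hA
  set B : ℝ≥0∞ := (((nf a + 2) * Q.eval (P * 2 ^ nf a) : ℕ) : ℝ≥0∞) + ES with hB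
  have hsz0 : ∀ b v, v < 2 ^ s →
      Q.eval (sz ((((a, un s), Sum.inl b), v) : ((α × List Unit) × Tag) × ℕ)) ≤ Q.eval W := by
    intro b v hv
    apply eval_mono
    have h1 := sz_nat_le v
    have h2 : v.size ≤ s := Nat.size_le.mpr hv
    have h4 := sz_un s
    have h5 := sz_bool_le b
    simp only [sz_pair, sz_inl]
    omega
  have h2s : 0 < 2 ^ s := by positivity
  -- the decision
  have h0 : E (((a, un s), Sum.inl true), 0) ≤ A + B := by
    refine (hE _).trans ?_
    have hn : next nf ind out (((a, un s), Sum.inl true), 0) =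
      Sum.inl (((a, un s), Sum.inr (Sum.inr (Sum.inl ([[]], un (nf a))))), []) := rfl
    rw [hn]
    simp only [Sum.elim_inl, List.length_nil]
    rw [avg_zero]
    refine add_le_add ?_ (pad_le hE a s P hP)
    refine Nat.cast_le.mpr ((hsz0 true 0 h2s).trans ?_)
    exact Nat.le_mul_of_pos_left _ (by omega)
  have h1 : ∀ i < 2 ^ s, i ≠ 0 → E (((a, un s), Sum.inl true), i) ≤ A := by
    intro i hi hi0
    refine (hE _).trans ?_
    have hn : next nf ind out (((a, un s), Sum.inl true), i) =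
      Sum.inl (((a, un s), Sum.inr (Sum.inl (grd (nf a) (fun y => ind (a, y)),
        un (2 * tt (nf a) (un s).length - 1)))), un (2 * m0 (nf a))) := by
      change (if i = 0 then _ else _) = _
      rw [if_neg hi0]
    rw [hn]
    simp only [Sum.elim_inl]
    rw [List.length_replicate, List.length_replicate]
    have h2 : avg (2 * m0 (nf a)) (fun v => E (((a, un s), Sum.inr (Sum.inl
        (grd (nf a) (fun y => ind (a, y)), un (2 * tt (nf a) s - 1)))), v)) ≤
        (((2 * tt (nf a) s + 1) * Q.eval W : ℕ) : ℝ≥0∞) := by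
      rw [← avg_const (2 * m0 (nf a)) (((2 * tt (nf a) s + 1) * Q.eval W : ℕ) : ℝ≥0∞)]
      refine avg_mono fun v hv => ?_
      refine (walk_le hE a s W (by omega) (2 * tt (nf a) s - 1) _ v (by omega) (length_grd _ _)
        hv).trans ?_
      exact Nat.cast_le.mpr (Nat.mul_le_mul_right _ (by omega))
    refine (add_le_add (Nat.cast_le.mpr (hsz0 true i hi)) h2).trans ?_
    rw [hA, ← Nat.cast_add]
    apply Nat.cast_le.mpr
    apply le_of_eq
    ring
  have h2 : ES ≤ ((Q.eval W : ℕ) : ℝ≥0∞) + (A + 2⁻¹ ^ s * B) := by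
    refine (hE _).trans ?_
    have hn : next nf ind out (((a, un s), Sum.inl false), 0) =
      Sum.inl (((a, un s), Sum.inl true), un s) := rfl
    rw [hn]
    simp only [Sum.elim_inl]
    rw [List.length_replicate]
    exact add_le_add (Nat.cast_le.mpr (hsz0 false 0 h2s)) (avg_special s _ A B h0 h1)
  -- the factor 2⁻ˢ
  have h3 : (2⁻¹ : ℝ≥0∞) ^ s * B ≤ (((nf a + 2) * Q.eval P : ℕ) : ℝ≥0∞) + 2⁻¹ * ES := by
    rw [hB, mul_add]
    refine add_le_add ?_ ?_
    · have e1 : (nf a + 2) * Q.eval (P * 2 ^ nf a) ≤ ((nf a + 2) * Q.eval P) * 2 ^ s := by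
        rw [mul_assoc]
        refine Nat.mul_le_mul_left _ ((eval_mul_le Q P (2 ^ nf a) Nat.one_le_two_pow).trans ?_)
        refine Nat.mul_le_mul_left _ ?_
        rw [← pow_mul, hs, mul_comm]
        exact Nat.pow_le_pow_right (by norm_num) (by omega)
      calc (2⁻¹ : ℝ≥0∞) ^ s * (((nf a + 2) * Q.eval (P * 2 ^ nf a) : ℕ) : ℝ≥0∞)
          ≤ (2⁻¹ : ℝ≥0∞) ^ s * ((((nf a + 2) * Q.eval P) * 2 ^ s : ℕ) : ℝ≥0∞) := by
            gcongr
        _ = ((2⁻¹ : ℝ≥0∞) ^ s * 2 ^ s) * (((nf a + 2) * Q.eval P : ℕ) : ℝ≥0∞) := by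
            push_cast
            ring
        _ = _ := by rw [two_inv_pow, one_mul]
    · refine mul_le_mul_left ?_ _
      rw [hs, pow_succ]
      calc (2⁻¹ : ℝ≥0∞) ^ (Q.natDegree * nf a) * 2⁻¹ ≤ 1 * 2⁻¹ := by
            gcongr
            exact pow_le_one₀ (by simp) (by simp)
        _ = 2⁻¹ := one_mul _
  have hfin : ES ≠ ⊤ := ne_top_of_le_ne_top (ENNReal.natCast_ne_top c) (hc _)
  set T : ℝ≥0∞ := (((2 * tt (nf a) s + 3) * Q.eval W + (nf a + 2) * Q.eval P : ℕ) : ℝ≥0∞) with hT
  have h4 : ES ≤ T + 2⁻¹ * ES := by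
    refine h2.trans ?_
    calc ((Q.eval W : ℕ) : ℝ≥0∞) + (A + 2⁻¹ ^ s * B)
        ≤ ((Q.eval W : ℕ) : ℝ≥0∞) + (A + ((((nf a + 2) * Q.eval P : ℕ) : ℝ≥0∞) + 2⁻¹ * ES)) := by
          gcongr
      _ = T + 2⁻¹ * ES := by
          rw [hT, hA]
          push_cast
          ring
  have h5 : 2⁻¹ * ES ≤ T := by
    have h6 : 2⁻¹ * ES + 2⁻¹ * ES ≤ T + 2⁻¹ * ES := by
      rw [half_add_half]
      exact h4
    have h7 : (2⁻¹ * ES : ℝ≥0∞) ≠ ⊤ := ENNReal.mul_ne_top (by simp) hfin
    exact (ENNReal.add_le_add_iff_right h7).1 h6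
  calc ES = 2 * (2⁻¹ * ES) := by
        rw [← mul_assoc, ENNReal.mul_inv_cancel (by simp) (by simp), one_mul]
    _ ≤ 2 * T := by gcongr
    _ = _ := by
        rw [hT]
        push_cast
        ring

theorem pow_size_le (n : ℕ) : 2 ^ n.size ≤ 2 * n + 1 := by
  rcases Nat.eq_zero_or_pos n with h | h
  · subst h
    simp
  · have h1 : 0 < n.size := Nat.size_pos.mpr h
    have h2 : 2 ^ (n.size - 1) ≤ n := Nat.lt_size.mp (by omega)
    have h3 : 2 ^ n.size = 2 * 2 ^ (n.size - 1) := by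
      rw [← pow_succ']
      congr 1
      omega
    omega

theorem m0_le (n : ℕ) : m0 n ≤ n + 1 := by
  have : n.size ≤ n := Nat.size_le.mpr Nat.lt_two_pow_self
  unfold m0
  omega

theorem tt_le {n s r t : ℕ} (hn : n ≤ r) (hs : s ≤ t) : tt n s ≤ (4 * r + 2) ^ 2 * (r + t) := by
  have h1 : 2 ^ m0 n ≤ 4 * n + 2 := by
    unfold m0
    rw [pow_succ]
    have := pow_size_le n
    omega
  unfold tt
  refine Nat.mul_le_mul ?_ (by omega)
  rw [mul_comm 2, pow_mul]
  exact Nat.pow_le_pow_left (h1.trans (by omega)) 2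

theorem mm_le {n s r t : ℕ} (hn : n ≤ r) (hs : s ≤ t) :
    mm n s ≤ 2 * (r + 1) * (2 * ((4 * r + 2) ^ 2 * (r + t))) := by
  unfold mm
  have h1 := m0_le n
  have h2 := tt_le hn hs
  exact Nat.mul_le_mul (by omega) (by omega)

/-- Part TIME. -/
theorem t_TIME : S_TIME := by
  intro α β _ _ nf ind out R Q hR
  let sP : Polynomial ℕ := Polynomial.C Q.natDegree * R + Polynomial.C 1
  let tP : Polynomial ℕ := (Polynomial.C 4 * R + Polynomial.C 2) ^ 2 * (R + sP)
  let mP : Polynomial ℕ := Polynomial.C 2 * (R + Polynomial.C 1) * (Polynomial.C 2 * tP)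
  let WP : Polynomial ℕ := Polynomial.X + Polynomial.C 6 * sP + Polynomial.C 4 * R +
    Polynomial.C 4 * tP + Polynomial.C 8 * (R + Polynomial.C 1) + Polynomial.C 20
  let PP : Polynomial ℕ := Polynomial.X + Polynomial.C 2 * sP + Polynomial.C 6 * R +
    Polynomial.C 4 * mP + Polynomial.C 30
  refine ⟨Polynomial.C 2 * ((Polynomial.C 2 * tP + Polynomial.C 3) * Q.comp WP +
    (R + Polynomial.C 2) * Q.comp PP), ?_⟩
  intro a E c hE hc
  set r := R.eval (sz a) with hr
  have hn : nf a ≤ r := hR a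
  have es : sP.eval (sz a) = Q.natDegree * r + 1 := by
    simp only [sP, Polynomial.eval_add, Polynomial.eval_mul, Polynomial.eval_C, hr]
  have et : tP.eval (sz a) = (4 * r + 2) ^ 2 * (r + (Q.natDegree * r + 1)) := by
    simp only [tP, Polynomial.eval_add, Polynomial.eval_mul, Polynomial.eval_C,
      Polynomial.eval_pow, hr, es]
  have em : mP.eval (sz a) = 2 * (r + 1) * (2 * ((4 * r + 2) ^ 2 * (r + (Q.natDegree * r + 1)))) := by
    simp only [mP, Polynomial.eval_add, Polynomial.eval_mul, Polynomial.eval_C, et, ← hr]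
  have eW : WP.eval (sz a) = sz a + 6 * sP.eval (sz a) + 4 * r + 4 * tP.eval (sz a) +
      8 * (r + 1) + 20 := by
    simp only [WP, Polynomial.eval_add, Polynomial.eval_mul, Polynomial.eval_C,
      Polynomial.eval_X, ← hr]
  have eP : PP.eval (sz a) = sz a + 2 * sP.eval (sz a) + 6 * r + 4 * mP.eval (sz a) + 30 := by
    simp only [PP, Polynomial.eval_add, Polynomial.eval_mul, Polynomial.eval_C,
      Polynomial.eval_X, ← hr]
  have hs : Q.natDegree * nf a + 1 ≤ Q.natDegree * r + 1 :=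
    Nat.succ_le_succ (Nat.mul_le_mul_left _ hn)
  have htt := tt_le hn hs
  have hmm := mm_le hn hs
  have hm0 := m0_le (nf a)
  refine (start_le (nf := nf) (ind := ind) (out := out) (Q := Q) hE c hc a
    (Q.natDegree * nf a + 1) rfl (WP.eval (sz a)) (PP.eval (sz a)) ?_ ?_).trans ?_
  · rw [eW, es, et]
    omega
  · rw [eP, es, em]
    omega
  · apply Nat.cast_le.mpr
    simp only [Polynomial.eval_add, Polynomial.eval_mul, Polynomial.eval_C, Polynomial.eval_comp]
    refine Nat.mul_le_mul_left _ (Nat.add_le_add (Nat.mul_le_mul_right _ ?_)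
      (Nat.mul_le_mul_right _ (by omega)))
    rw [et]
    omega

end Pool.Agent.H43.ST
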